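import Mathlib
import Pool.Agent.H50.Vreg4

namespace Pool.Agent.Results.MP_72aa19_al.Weighted

open MvPolynomial Pool.Agent.H50.Vreg

/-- `J` is a proper homogeneous ideal of `ℚ[x_1, ..., x_n]`, `deg x_i = w i`, and the graded ring
`R = ℚ[x_1, ..., x_n] / J` has a Noetherian graded filtration with `v(I k) = k + a`,
`reg(I k) = k + b` and `reg(I k) < v(I k)` for all `k ≥ 1`. -/
def Fails {n : ℕ} (w : Fin n → ℕ) (J : Ideal (MvPolynomial (Fin n) ℚ)) (a b : ℤ) : Prop :=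
  J ≠ ⊤ ∧ Graded (fun d f => f ∈ A w d) J ∧
    ∃ I : ℕ → Ideal (MvPolynomial (Fin n) ℚ ⧸ J), NoethFilt (Hq (A w) J) I ∧ ∀ k, 1 ≤ k →
      (vnum (Hq (A w) J) (I k) : ℤ) = k + a ∧
      reg (Hq (A w) J) (fun i => Ideal.Quotient.mk J (X i)) w (I k) = ((k + b : ℤ) : ℝ) ∧
      reg (Hq (A w) J) (fun i => Ideal.Quotient.mk J (X i)) w (I k) <
        (vnum (Hq (A w) J) (I k) : ℝ)

theorem result : Fails ![1, 3] ⊥ (-1) (-2) := by
  refine ⟨bot_ne_top, graded_of _ (Ideal.IsHomogeneous.bot _), _, noeth _ hX0, fun k hk => ?_⟩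
  obtain ⟨k, rfl⟩ := Nat.exists_eq_add_of_le' hk
  obtain ⟨h1, h2⟩ := ex2 k
  rw [h1, h2]
  refine ⟨by push_cast; ring, by congr 2; push_cast; ring, ?_⟩
  rw [EReal.coe_lt_coe_iff]; push_cast; linarith

end Pool.Agent.Results.MP_72aa19_al.Weighted
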